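import Mathlib
import Pool.Agent.Lib.helper23.BLE

set_option autoImplicit false

namespace Pool.Agent.Results.MP_23899c_an.Main

open Pool.Agent.Lib.helper23.BL

theorem result : ∃ (P : Type) (_ : BanachLattice P), Projective P ∧
    (∀ s : Set P, s.Nonempty → BddAbove s → ∃ x, IsLUB s x) ∧
    ∀ (ι : Type) [Countable ι] (E : ι → Type) [∀ i, BanachLattice (E i)],
      (∀ i, FiniteDimensional ℝ (E i)) → ∀ Φ : P ≃ₗᵢ[ℝ] LpSum E 1, ¬ ∀ x, Φ |x| = |Φ x| := by
  classical
  obtain ⟨ρ, h1, h2, h3⟩ := exists_path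
  refine ⟨Renorm ρ, inferInstance, h1, ellOne_lub, fun ι _ E _ hE Φ hΦ => ?_⟩
  let Ψ : LpSum E 1 →L[ℝ] EllOne :=
    ((Renorm.eqv ρ).symm : _ →L[ℝ] _).comp Φ.symm.toContinuousLinearEquiv.toContinuousLinearMap
  have hΨ : IsHom Ψ := (Renorm.symm_hom ρ).comp fun y => Φ.injective (by
    change Φ (Φ.symm |y|) = Φ |Φ.symm y|
    rw [hΦ, Φ.apply_symm_apply, Φ.apply_symm_apply])
  let u : ℕ → LpSum E 1 := fun n => Φ (Renorm.eqv ρ (ee n))
  have hu : ∀ n, Ψ (u n) = ee n := fun n => Φ.symm_apply_apply _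
  have inj : Function.Injective Ψ := (Renorm.eqv ρ).symm.injective.comp Φ.symm.injective
  have u0 : ∀ n, |u n| = u n := fun n => inj (by rw [hΨ, hu, abs_of_nonneg (ee_nonneg n)])
  have nu : ∀ n, 1 ≤ ‖u n‖ := fun n => (h2 n).trans_eq (Φ.norm_map _).symm
  have key : ∀ n, ∃ i, ∃ a : E i, u n = lp.single 1 i a := fun n => by
    obtain ⟨i, hi⟩ : ∃ i, (u n).1 i ≠ 0 := by
      by_contra hc
      push Not at hc
      have := nu n
      rw [show u n = 0 from lp.ext (funext hc), norm_zero] at this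
      linarith
    let v : LpSum E 1 := lp.single 1 i ((u n).1 i)
    have h4 : |v| ≤ |u n| := fun j => by
      change |(lp.single (E := E) 1 i ((u n).1 i)) j| ≤ |(u n).1 j|
      by_cases h : j = i
      · subst h
        rw [lp.single_apply_self]
      · rw [lp.single_apply_ne _ _ _ h, abs_of_nonneg le_rfl]
        exact abs_nonneg _
    have h5 := hΨ.mono h4
    rw [hΨ, u0, hu] at h5
    have h6 : v = co n (Ψ v) • u n := inj (by rw [map_smul, hu]; exact atom_ee h5)
    have h7 : (u n).1 i = co n (Ψ v) • (u n).1 i :=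
      (lp.single_apply_self (E := E) 1 i _).symm.trans (congrArg (fun w : LpSum E 1 => w.1 i) h6)
    have h8 : co n (Ψ v) = 1 := smul_left_injective ℝ hi (h7.symm.trans (one_smul _ _).symm)
    rw [h8, one_smul] at h6
    exact ⟨i, _, h6.symm⟩
  choose i a ha using key
  have na : ∀ n, 1 ≤ ‖a n‖ := fun n => by
    have := nu n
    rw [ha] at this
    exact this.trans_eq (lp.norm_single (E := E) zero_lt_one _ _)
  have step : ∀ n, i (n + 1) = i n := fun n => by
    by_contra h
    have h4 := lp.sum_rpow_le_norm_rpow (E := E) (p := 1) (by simp) (u n + u (n + 1))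
      {i (n + 1), i n}
    have h5 : ‖u n + u (n + 1)‖ ≤ 1 := by
      refine le_trans (le_of_eq ?_) (h3 n)
      rw [← map_add, Φ.norm_map]
      rfl
    rw [Finset.sum_pair h] at h4
    simp only [ENNReal.toReal_one, Real.rpow_one] at h4
    have h6 : (u n + u (n + 1)).1 (i n) = a n := by
      change (u n).1 (i n) + (u (n + 1)).1 (i n) = _
      rw [ha n, ha (n + 1)]
      exact (congrArg₂ (· + ·) (lp.single_apply_self (E := E) 1 _ _)
        (lp.single_apply_ne (E := E) 1 _ _ (Ne.symm h))).trans (add_zero _)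
    have h7 : (u n + u (n + 1)).1 (i (n + 1)) = a (n + 1) := by
      change (u n).1 (i (n + 1)) + (u (n + 1)).1 (i (n + 1)) = _
      rw [ha n, ha (n + 1)]
      exact (congrArg₂ (· + ·) (lp.single_apply_ne (E := E) 1 _ _ h)
        (lp.single_apply_self (E := E) 1 _ _)).trans (zero_add _)
    have h8 : ‖(u n + u (n + 1)).1 (i (n + 1))‖ + ‖(u n + u (n + 1)).1 (i n)‖ ≤
      ‖u n + u (n + 1)‖ := h4
    rw [h6, h7] at h8
    linarith [na n, na (n + 1)]
  have const : ∀ n, i n = i 0 := fun n => by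
    induction n with
    | zero => rfl
    | succ n ih => rw [step, ih]
  have key : ∀ n, ∃ b : E (i 0), u n = lp.single 1 (i 0) b := fun n => by
    rw [← const n]
    exact ⟨_, ha n⟩
  choose b hb using key
  have li : LinearIndependent ℝ ee := LinearIndependent.of_pairwise_dual_eq_zero_one ee
    (fun n => (co n).toLinearMap) (fun n m h => (co_ee n m).trans (if_neg h))
    fun n => (co_ee n n).trans (if_pos rfl)
  have e : ee = (Ψ.toLinearMap.comp (lp.lsingle (𝕜 := ℝ) (E := E) 1 (i 0))) ∘ b := by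
    funext n
    rw [← hu, hb]
    rfl
  rw [e] at li
  haveI := hE (i 0)
  exact Module.Finite.not_linearIndependent_of_infinite b (LinearIndependent.of_comp _ li)

end Pool.Agent.Results.MP_23899c_an.Main
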